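import Pool.Agent.helper59.BR.SpecH
import Pool.Agent.helper58.LZ.ZNV

/-!
# Project BR, block H, row HVA: the numbers `|G| az η ψ z / ψ 1` modulo `M`
-/

set_option autoImplicit false

namespace Pool.Agent.BR

open Pool.Agent.helper58.DC Pool.Agent.DI Pool.Agent.GR Pool.Agent.OB Pool.Agent.DR Pool.Agent.FI Pool.Agent.FI3 Pool.Agent.FI4 Pool.Agent.LE

theorem HVA_main {G : Type} [Group G] [Finite G] (p : ℕ) (M : Ideal (integralClosure ℤ ℂ)) (hS : Setup p M) (D : Subgroup G) (θ : G → ℂ) (K : Subgroup G) (z : G) (hcom : ∀ k ∈ K, z * k = k * z)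
    (η₀ : G → ℂ) (hη : η₀ ∈ IrrOn K) (N : ℕ)
    (hcard : {g : G | g * z * g⁻¹ ∈ D ∧ SB M K (cjF g⁻¹ θ) θ}.ncard = N * Nat.card K)
    (hA : ∀ g : G, ((g * z * g⁻¹ ∉ D ∨ ¬ SB M K (cjF g⁻¹ θ) θ) → InM M (ag p K η₀ θ z g)) ∧
    (g * z * g⁻¹ ∈ D → SB M K (cjF g⁻¹ θ) θ →
      InM M (ag p K η₀ θ z g - cc θ (kap p K η₀))))
    (ψ : G → ℂ) (hψ : ψ ∈ IrrOn (⊤ : Subgroup G)) (hSB : SB M (⊤ : Subgroup G) ψ θ) :
    InM M ((Nat.card G : ℂ) * az p K η₀ ψ z / ψ 1 - (N : ℂ) * cc θ (kap p K η₀)) := by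
  classical
  have : Fintype G := Fintype.ofFinite G
  have : Fintype (G ⧸ K) := Fintype.ofFinite _
  have hK0 : (Nat.card K : ℂ) ≠ 0 := by exact_mod_cast Nat.card_pos.ne'
  obtain ⟨w, hw⟩ : ∃ w : G → G → ℂ, w = fun g x => kap p K η₀ (z⁻¹ * (g⁻¹ * x * g)) := ⟨_, rfl⟩
  have hwk : ∀ x g : G, ∀ k ∈ K, w (g * k) x = w g x := by
    intro x g k hk
    rw [hw]
    exact ZNV_cos p K z hcom η₀ hη x g hk
  obtain ⟨W, hW⟩ : ∃ W : G → ℂ, W = fun x => ∑ q : G ⧸ K, w q.out x := ⟨_, rfl⟩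
  have hWs : ∀ x, (Nat.card K : ℂ) * W x = ∑ g, w g x := by
    intro x
    rw [ZNV_sumq K (fun g => w g x) (fun g k hk => hwk x g k hk), hW]
  have hWc : ∀ h x, W (h * x * h⁻¹) = W x := by
    intro h x
    apply mul_left_cancel₀ hK0
    rw [hWs (h * x * h⁻¹), hWs x, ← Equiv.sum_comp (Equiv.mulLeft h)]
    refine Finset.sum_congr rfl fun g _ => ?_
    rw [hw]
    show kap p K η₀ (z⁻¹ * ((h * g)⁻¹ * (h * x * h⁻¹) * (h * g))) = kap p K η₀ (z⁻¹ * (g⁻¹ * x * g))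
    congr 2
    group
  have hWi : ∀ x, IntAt M (W x) := by
    intro x
    rw [hW]
    refine IntAt.sum hS _ fun q _ => ?_
    rw [hw]
    exact IntAt.of_isIntegral hS (ZNV_kap_int p K η₀ hη _)
  have hCF : CF (⊤ : Subgroup G) W := ⟨fun h _ x => hWc h x, fun x hx => absurd (Subgroup.mem_top x) hx⟩
  have hcc : ∀ φ : G → ℂ, cc φ W = ∑ q : G ⧸ K, ag p K η₀ φ z q.out := by
    intro φ
    unfold ag cc
    rw [← Finset.sum_div]
    congr 1
    rw [finsum_eq_sum_of_fintype]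
    have h1 : ∀ q : G ⧸ K, ∑ᶠ x, (fun x => kap p K η₀ (z⁻¹ * ((q.out)⁻¹ * x * q.out))) x * φ x =
        ∑ x, w q.out x * φ x := by
      intro q
      rw [finsum_eq_sum_of_fintype, hw]
    rw [Finset.sum_congr rfl (fun q _ => h1 q), Finset.sum_comm]
    refine Finset.sum_congr rfl fun x _ => ?_
    rw [hW, Finset.sum_mul]
  -- the character `ψ`
  have hψ0 : cc ψ W = (Nat.card G : ℂ) * az p K η₀ ψ z / ψ 1 := by
    rw [hcc]
    have h1 : ∀ q : G ⧸ K, ag p K η₀ ψ z q.out = (Nat.card K : ℂ) * az p K η₀ ψ z / ψ 1 := fun q =>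
      ZNV_ag p K η₀ ψ z _ fun x => IrrOn_conj hψ (Subgroup.mem_top _) x
    rw [Finset.sum_congr rfl fun q _ => h1 q, Finset.sum_const, Finset.card_univ, nsmul_eq_mul]
    have h2 := Subgroup.card_eq_card_quotient_mul_card_subgroup K
    rw [h2, ← Nat.card_eq_fintype_card]
    push_cast
    ring
  have hθ : InM M (cc ψ W - cc θ W) := SBIb hS hSB hCF hWi
  -- the number of the cosets
  obtain ⟨c, hc⟩ : ∃ c : ℂ, c = cc θ (kap p K η₀) := ⟨_, rfl⟩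
  obtain ⟨Z, hZ⟩ : ∃ Z : Set G, Z = {g : G | g * z * g⁻¹ ∈ D ∧ SB M K (cjF g⁻¹ θ) θ} := ⟨_, rfl⟩
  have hZk : ∀ g : G, ∀ k ∈ K, g * k ∈ Z ↔ g ∈ Z := by
    intro g k hk
    have hkz : z * k = k * z := hcom k hk
    have h1 : (g * k) * z * (g * k)⁻¹ = g * z * g⁻¹ := by
      calc (g * k) * z * (g * k)⁻¹ = g * (k * z) * k⁻¹ * g⁻¹ := by group
        _ = g * (z * k) * k⁻¹ * g⁻¹ := by rw [hkz]
        _ = _ := by group
    have h2 : cjF (g * k)⁻¹ θ = cjF k⁻¹ (cjF g⁻¹ θ) := by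
      rw [mul_inv_rev]
      exact funMap_mul _ _ _
    have h3 : SB M K (cjF k⁻¹ (cjF g⁻¹ θ)) (cjF g⁻¹ θ) := SB_inner (K.inv_mem hk) _
    rw [hZ]
    show ((g * k) * z * (g * k)⁻¹ ∈ D ∧ SB M K (cjF (g * k)⁻¹ θ) θ) ↔ (g * z * g⁻¹ ∈ D ∧ SB M K (cjF g⁻¹ θ) θ)
    rw [h1, h2]
    exact and_congr_right fun _ => ⟨fun h => h3.symm.trans h, fun h => h3.trans h⟩
  have hsum : ∑ q : G ⧸ K, (if q.out ∈ Z then (1 : ℂ) else 0) = N := by
    apply mul_left_cancel₀ hK0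
    rw [← ZNV_sumq K (fun g => if g ∈ Z then (1 : ℂ) else 0) (fun g k hk => by
      by_cases h : g ∈ Z
      · rw [if_pos h, if_pos ((hZk g k hk).2 h)]
      · rw [if_neg h, if_neg fun h' => h ((hZk g k hk).1 h')])]
    rw [Finset.sum_ite, Finset.sum_const_zero, add_zero, Finset.sum_const, nsmul_eq_mul, mul_one]
    have h1 : (Finset.univ.filter fun g => g ∈ Z).card = Z.ncard := by
      rw [Set.ncard_eq_toFinset_card', Set.toFinset_card]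
      rw [Fintype.card_subtype]
    rw [h1, hZ, hcard]
    push_cast
    ring
  have h1 : InM M (cc θ W - (N : ℂ) * c) := by
    rw [hcc, ← hsum, Finset.sum_mul, ← Finset.sum_sub_distrib]
    refine InM.sum hS _ fun q _ => ?_
    by_cases h : q.out ∈ Z
    · rw [if_pos h, one_mul, hc]
      rw [hZ] at h
      exact (hA _).2 h.1 h.2
    · rw [if_neg h, zero_mul, sub_zero]
      rw [hZ] at h
      refine (hA _).1 ?_
      by_contra h'
      rw [not_or, not_not, not_not] at h'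
      exact h h'
  have h2 := hθ.add hS h1
  rw [← hψ0, ← hc]
  have h3 : cc ψ W - cc θ W + (cc θ W - (N : ℂ) * c) = cc ψ W - (N : ℂ) * c := by ring
  rwa [h3] at h2

theorem HVA (hZAG : ZAG_stmt) (hZCT : ZCT_stmt) : HVA_stmt := by
  intro p M hS G _ _ D x θ χ hLo z hz
  obtain ⟨N, hN, hcard⟩ := hZCT p M hS G D x θ χ hLo z hz
  refine ⟨N, hN, fun η hη ψ hψ => ?_⟩
  exact HVA_main p M hS D θ _ z (fun k hk => (mem_Cz.1 hk).2) η hη.1 N hcard (hZAG p M hS G D x θ χ hLo z hz η hη) ψ hψ.1 hψ.2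

end Pool.Agent.BR
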